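import Pool.Agent.Y489.SP.Stm
import Pool.Agent.Y438.HS.DL

/-!
# Project SP, task HOMT: homotopy invariance of the local degree
-/

set_option autoImplicit false

open MeasureTheory Set Metric Filter Topology
open scoped ENNReal NNReal Manifold ContDiff

noncomputable section

namespace Pool.Agent.Y255.SP

open Pool.Agent.Y485.HS Pool.Agent.Y489.SP

/-- the integrand -/
def hh {n : ℕ} (φ : E n → ℝ) (F : E n → E n) (x : E n) : ℝ := φ (F x) * (fderiv ℝ F x).det

theorem lip_of {n : ℕ} {F : E n → E n} {R : ℝ} (hF : ContDiff ℝ 1 F)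
    (hid : ∀ x, R ≤ ‖x‖ → F x = x) : ∃ K : ℝ≥0, LipschitzWith K F := by
  have hcs : HasCompactSupport (fun x => F x - x) := by
    refine HasCompactSupport.intro (isCompact_closedBall (0 : E n) R) fun x hx => ?_
    rw [mem_closedBall, dist_zero_right, not_le] at hx
    show F x - x = 0
    rw [hid x hx.le, sub_self]
  have hv : ContDiff ℝ 1 (fun x => F x - x) := hF.sub contDiff_id
  obtain ⟨K, hK⟩ := hv.lipschitzWith_of_hasCompactSupport hcs (by norm_num)
  refine ⟨K + 1, ?_⟩
  have h1 := hK.add (LipschitzWith.id (α := E n))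
  have e : (fun x => F x - x + id x) = F := by
    ext x
    simp
  rw [← e]
  exact h1

theorem hh_cont {n : ℕ} {φ : E n → ℝ} {F : E n → E n} (hφ : Continuous φ) (hF : ContDiff ℝ 1 F) :
    Continuous (hh φ F) := by
  unfold hh
  refine (hφ.comp hF.continuous).mul ?_
  exact ContinuousLinearMap.continuous_det.comp (hF.continuous_fderiv (by norm_num))

theorem hh_supp {n : ℕ} {φ : E n → ℝ} {F : E n → E n} {R δ : ℝ} {y : E n}
    (hid : ∀ x, R ≤ ‖x‖ → F x = x) (h0 : ∀ w, δ ≤ dist w y → φ w = 0) :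
    HasCompactSupport (hh φ F) := by
  refine HasCompactSupport.intro (isCompact_closedBall (0 : E n) (max R (‖y‖ + δ))) fun x hx => ?_
  rw [mem_closedBall, dist_zero_right, not_le] at hx
  unfold hh
  rw [hid x ((le_max_left _ _).trans hx.le), h0 x, zero_mul]
  have h1 := (le_max_right R (‖y‖ + δ)).trans hx.le
  rw [dist_eq_norm]
  have := norm_sub_norm_le x y
  linarith

/-- the total integral -/
theorem hh_int {n : ℕ} {φ : E n → ℝ} {F : E n → E n} {R δ : ℝ} {y : E n} (hφ : Continuous φ)
    (hF : ContDiff ℝ 1 F) (hid : ∀ x, R ≤ ‖x‖ → F x = x) (h0 : ∀ w, δ ≤ dist w y → φ w = 0) :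
    ∫ x, hh φ F x = ∫ x, φ x := by
  obtain ⟨K, hK⟩ := lip_of hF hid
  have hφs : HasCompactSupport φ := by
    refine HasCompactSupport.intro (isCompact_closedBall y δ) fun x hx => ?_
    rw [mem_closedBall, not_le] at hx
    exact h0 x hx.le
  exact Pool.Agent.Y438.HS.dl n F K (max R 1) (lt_of_lt_of_le one_pos (le_max_right _ _)) hK
    (fun x hx => hid x ((le_max_left _ _).trans hx)) φ hφ hφs

theorem hh_split {n : ℕ} {φ : E n → ℝ} {F : E n → E n} {R δ : ℝ} {y : E n} (hφ : Continuous φ)
    (hF : ContDiff ℝ 1 F) (hid : ∀ x, R ≤ ‖x‖ → F x = x) (h0 : ∀ w, δ ≤ dist w y → φ w = 0)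
    {U : Set (E n)} (hU : IsOpen U) :
    (∫ x in U, hh φ F x) + ∫ x in Uᶜ, hh φ F x = ∫ x, φ x := by
  rw [integral_add_compl hU.measurableSet
    ((hh_cont hφ hF).integrable_of_hasCompactSupport (hh_supp hid h0)), hh_int hφ hF hid h0]

/-- Task HOMT. -/
theorem t_HOMT : S_HOMT := by
  intro n F0 F1 R hF0 hF1 hid U V η δ y hU hV hη hδ hUV hd φ hφ h0
  change ∫ x in U, hh φ F1 x = ∫ x in U, hh φ F0 x
  have hη2 : 0 < η / 2 := by linarith
  have hcl : closure U ⊆ thickening (η / 2) U := closure_subset_thickening hη2 U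
  obtain ⟨χ, hχ0, hχ1, hχ⟩ := exists_contMDiffMap_zero_one_of_isClosed (n := 1) 𝓘(ℝ, E n)
    (s := (thickening (η / 2) U)ᶜ) (t := closure U) isOpen_thickening.isClosed_compl
    isClosed_closure (disjoint_compl_left_iff_subset.2 hcl)
  have hχc : ContDiff ℝ 1 (fun x => χ x) := χ.contMDiff.contDiff
  set G : E n → E n := fun x => F0 x + χ x • (F1 x - F0 x) with hG
  have hGc : ContDiff ℝ 1 G := hF0.add (hχc.smul (hF1.sub hF0))
  have hout : ∀ x, x ∉ thickening (η / 2) U → G x = F0 x := by
    intro x hx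
    have h1 : χ x = 0 := hχ0 hx
    rw [hG]
    simp only
    rw [h1, zero_smul, add_zero]
  have hin : ∀ x ∈ U, G x = F1 x := by
    intro x hx
    have h1 : χ x = 1 := hχ1 (subset_closure hx)
    rw [hG]
    simp only
    rw [h1, one_smul, add_sub_cancel]
  have hT : closure (thickening (η / 2) U) ⊆ V :=
    (closure_thickening_subset_cthickening _ _).trans
      ((cthickening_subset_thickening' hη (by linarith) U).trans hUV)
  obtain ⟨R', hR'⟩ := hV.subset_closedBall (0 : E n)
  have hGid : ∀ x, max R (R' + 1) ≤ ‖x‖ → G x = x := by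
    intro x hx
    have hxV : x ∉ V := by
      intro h
      have h1 := hR' h
      rw [mem_closedBall, dist_zero_right] at h1
      have h2 := (le_max_right R (R' + 1)).trans hx
      linarith
    rw [hout x (fun h => hxV (hT (subset_closure h)))]
    exact hid x ((le_max_left _ _).trans hx)
  have h1 := hh_split hφ hGc hGid h0 hU
  have h2 := hh_split hφ hF0 hid h0 hU
  have h3 : ∫ x in U, hh φ G x = ∫ x in U, hh φ F1 x := by
    refine setIntegral_congr_fun hU.measurableSet fun x hx => ?_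
    have h4 : G =ᶠ[𝓝 x] F1 := by
      filter_upwards [hU.mem_nhds hx] with z hz
      exact hin z hz
    unfold hh
    rw [h4.fderiv_eq, h4.eq_of_nhds]
  have h5 : ∫ x in Uᶜ, hh φ G x = ∫ x in Uᶜ, hh φ F0 x := by
    refine setIntegral_congr_fun hU.measurableSet.compl fun x hx => ?_
    by_cases hxV : x ∈ V
    · have h6 := hd x ⟨hxV, hx⟩
      have h7 : φ (G x) = 0 := h0 _ (h6 (χ x) (hχ x))
      have h8 : φ (F0 x) = 0 := by
        apply h0
        have := h6 0 ⟨le_refl 0, zero_le_one⟩
        rwa [zero_smul, add_zero] at this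
      unfold hh
      rw [h7, h8, zero_mul, zero_mul]
    · have h4 : G =ᶠ[𝓝 x] F0 := by
        have h9 : (closure (thickening (η / 2) U))ᶜ ∈ 𝓝 x :=
          isClosed_closure.isOpen_compl.mem_nhds (fun h => hxV (hT h))
        filter_upwards [h9] with z hz
        exact hout z (fun h => hz (subset_closure h))
      unfold hh
      rw [h4.fderiv_eq, h4.eq_of_nhds]
  rw [h3] at h1
  rw [h5] at h1
  linarith

end Pool.Agent.Y255.SP
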